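import Pool.Agent.Helper78.W3.StC

/-!
# Project W3: module TRQ (dimension by fixed points)
-/

set_option autoImplicit false

namespace Pool.Agent.Helper10.W3

open Pool.Agent.Helper78.W3 Pool.Agent.Helper14.W3
open Pool.Agent.Helper14.CV (Homog EqC act Tl)

variable {ι : Type} {H : Type} [Fintype H]

/-- The weighted average. -/
private noncomputable def av (a : H → ι → ι) (c : H → ℂ) : (ι → ℂ) →ₗ[ℂ] (ι → ℂ) where
  toFun F := fun i => ∑ h : H, c h * F (a h i)
  map_add' F F' := by
    funext i
    simp only [Pi.add_apply, mul_add, Finset.sum_add_distrib]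
  map_smul' t F := by
    funext i
    simp only [Pi.smul_apply, smul_eq_mul, RingHom.id_apply]
    rw [Finset.mul_sum]
    refine Finset.sum_congr rfl fun g _ => ?_
    ring

private theorem av_apply (a : H → ι → ι) (c : H → ℂ) (F : ι → ℂ) (i : ι) :
    av a c F i = ∑ h : H, c h * F (a h i) := rfl

/-- MODULE TRQ. -/
theorem hTrq : S3Trq := by
  intro ι _ _ H _ a c V h1 h2
  have hproj : LinearMap.IsProj V (av a c) := ⟨fun F => h1 F, fun F hF => funext fun i => h2 F hF i⟩
  have htr := hproj.trace
  rw [← htr, LinearMap.trace_eq_matrix_trace ℂ (Pi.basisFun ℂ ι), Matrix.trace]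
  have e : ∀ i ∈ (Finset.univ : Finset ι),
      Matrix.diag (LinearMap.toMatrix (Pi.basisFun ℂ ι) (Pi.basisFun ℂ ι) (av a c)) i =
      ∑ h : H, c h * (if a h i = i then 1 else 0) := by
    intro i _
    rw [Matrix.diag_apply, LinearMap.toMatrix_apply, Pi.basisFun_repr, Pi.basisFun_apply, av_apply]
    refine Finset.sum_congr rfl fun g _ => ?_
    rw [Pi.single_apply]
  rw [Finset.sum_congr rfl e, Finset.sum_comm]
  refine Finset.sum_congr rfl fun g _ => ?_
  rw [← Finset.mul_sum, Finset.sum_boole]

end Pool.Agent.Helper10.W3
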